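import Pool.Agent.MWGN.StmtsB

/-!
# Row G3F of MWGN (helper66)
-/

set_option autoImplicit false

namespace Pool.Agent.MWGN.H66

open Pool.Agent.Helper14_MV Pool.Agent.Helper2_MV Pool.Agent.MWGN

/-- **G3F** -/
theorem g3f (hD : DpeStmt) (hC : CmwStmt) : G3fStmt :=
  fun β hm hg hi => hC β hg hi (fun m τ ht => hD β hm hg m τ ht)

end Pool.Agent.MWGN.H66
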