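import Pool.Agent.MWGN.StmtsC

/-!
# Row TWT of MWGN (helper66): the order `tw`
-/

set_option autoImplicit false

namespace Pool.Agent.MWGN.H66

open Pool.Agent.Helper14_MV Pool.Agent.Helper2_MV Pool.Agent.MWGN
open Pool.Agent.MWK (pre Gw)

/-- the block of `i` -/
def tb (r i : ℕ) : List ℕ := if i = 0 then [0, 1] else if i = r then [r + 1, r + 2] else [i + 1]

/-- the owner -/
def ow (r v : ℕ) : ℕ := if v ≤ 1 then 0 else if r + 1 ≤ v then r else v - 1

theorem tw_eq (τ : List ℕ) (r : ℕ) : tw τ r = τ.flatMap (tb r) := rfl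

theorem ow_tb {r i v : ℕ} (hr : 1 ≤ r) (hi : i ≤ r) (h : v ∈ tb r i) : ow r v = i := by
  unfold tb at h
  unfold ow
  by_cases h0 : i = 0
  · rw [if_pos h0] at h
    simp only [List.mem_cons, List.not_mem_nil, or_false] at h
    rw [if_pos (by omega), h0]
  · rw [if_neg h0] at h
    by_cases h1 : i = r
    · rw [if_pos h1] at h
      simp only [List.mem_cons, List.not_mem_nil, or_false] at h
      rw [if_neg (by omega), if_pos (by omega), h1]
    · rw [if_neg h1] at h
      simp only [List.mem_cons, List.not_mem_nil, or_false] at h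
      rw [if_neg (by omega), if_neg (by omega)]
      omega

theorem mem_tb {r v : ℕ} (hr : 1 ≤ r) (hv : v ≤ r + 2) : v ∈ tb r (ow r v) := by
  unfold tb ow
  by_cases h0 : v ≤ 1
  · rw [if_pos h0, if_pos rfl]
    simp only [List.mem_cons, List.not_mem_nil, or_false]
    omega
  · rw [if_neg h0]
    by_cases h1 : r + 1 ≤ v
    · rw [if_pos h1, if_neg (by omega), if_pos rfl]
      simp only [List.mem_cons, List.not_mem_nil, or_false]
      omega
    · rw [if_neg h1, if_neg (by omega), if_neg (by omega)]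
      simp only [List.mem_cons, List.not_mem_nil, or_false]
      omega

theorem ow_le {r v : ℕ} : ow r v ≤ r := by
  unfold ow
  by_cases h0 : v ≤ 1
  · rw [if_pos h0]
    exact Nat.zero_le _
  · rw [if_neg h0]
    by_cases h1 : r + 1 ≤ v
    · rw [if_pos h1]
    · rw [if_neg h1]
      omega

theorem tb_le {r i v : ℕ} (hi : i ≤ r) (_ : 1 ≤ r) (h : v ∈ tb r i) : v ≤ r + 2 := by
  unfold tb at h
  by_cases h0 : i = 0
  · rw [if_pos h0] at h
    simp only [List.mem_cons, List.not_mem_nil, or_false] at h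
    omega
  · rw [if_neg h0] at h
    by_cases h1 : i = r
    · rw [if_pos h1] at h
      simp only [List.mem_cons, List.not_mem_nil, or_false] at h
      omega
    · rw [if_neg h1] at h
      simp only [List.mem_cons, List.not_mem_nil, or_false] at h
      omega

theorem tb_nodup (r i : ℕ) : (tb r i).Nodup := by
  unfold tb
  split_ifs
  · simp
  · simp
  · simp

theorem ix_tb {r i : ℕ} : ix i ∈ tb r i := by
  unfold ix tb
  by_cases h0 : i = 0
  · rw [if_pos h0, if_pos h0]
    simp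
  · rw [if_neg h0, if_neg h0]
    by_cases h1 : i = r
    · rw [if_pos h1, h1]
      simp
    · rw [if_neg h1]
      simp

theorem iy_tb {r i : ℕ} (hr : 1 ≤ r) : iy r i ∈ tb r i := by
  unfold iy tb
  by_cases h0 : i = 0
  · rw [if_pos h0, if_neg (by omega), h0]
    simp
  · rw [if_neg h0]
    by_cases h1 : i = r
    · rw [if_pos h1, if_pos h1]
      simp
    · rw [if_neg h1, if_neg h1]
      simp

theorem key {τ : List ℕ} {r : ℕ} (hr : 1 ≤ r) (ht : Tau τ r) {i j u v : ℕ} (hj : j ≤ r)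
    (hij : i ∈ pre τ j) (hu : u ∈ tb r i) (hv : v ∈ tb r j) : u ∈ pre (tw τ r) v := by
  obtain ⟨B, hB⟩ := MWK.mem_split ((ht.2 j).2 hj)
  have h1 : tw τ r = (pre τ j).flatMap (tb r) ++ (j :: B).flatMap (tb r) := by
    rw [tw_eq]
    conv_lhs => rw [hB]
    rw [List.flatMap_append]
  have h2 : v ∉ (pre τ j).flatMap (tb r) := by
    intro h
    obtain ⟨i', hi', hv'⟩ := List.mem_flatMap.1 h
    have h3 : i' ∈ τ := (MWK.pre_prefix τ j).subset hi'
    have h4 : i' = j := (ow_tb hr ((ht.2 i').1 h3) hv').symm.trans (ow_tb hr hj hv)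
    rw [h4] at hi'
    exact MWK.not_mem_pre τ j hi'
  rw [h1, MWK.pre_append h2]
  exact List.mem_append_left _ (List.mem_flatMap.2 ⟨i, hij, hu⟩)

/-- **TWT** -/
theorem twt : TwtStmt := by
  intro τ r hr ht
  refine ⟨⟨?_, fun v => ⟨fun h => ?_, fun h => ?_⟩⟩, fun i j hi hj hij => ?_⟩
  · rw [tw_eq, List.nodup_flatMap]
    refine ⟨fun i _ => tb_nodup r i, ?_⟩
    refine List.Pairwise.imp_of_mem (R := fun a b : ℕ => a ≠ b) ?_ ht.1
    intro a b ha hb hab v hva hvb
    exact hab ((ow_tb hr ((ht.2 a).1 ha) hva).symm.trans (ow_tb hr ((ht.2 b).1 hb) hvb))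
  · rw [tw_eq] at h
    obtain ⟨i, hi, hv⟩ := List.mem_flatMap.1 h
    exact tb_le ((ht.2 i).1 hi) hr hv
  · rw [tw_eq]
    exact List.mem_flatMap.2 ⟨ow r v, (ht.2 _).2 ow_le, mem_tb hr h⟩
  · exact ⟨key hr ht hj hij ix_tb ix_tb, key hr ht hj hij (iy_tb hr) (iy_tb hr)⟩

end Pool.Agent.MWGN.H66
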